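import Pool.Agent.Work.MP_70e905_nt.Q4.Clus

/-!
# Eta : a difference of two primes near `m n` for some `m ≤ K`

From `ClusterPlus K`: there is `C` such that for all `1 ≤ n ≤ x` there are `m ∈ [1, K]` and primes
`x < q ≤ p ≤ C x` with `|p - q - m n| ≤ C`.
Clusters: cluster `c` consists of the integers `c n + t` with `t ≡ -c n` modulo `W`, `t ≤ W L`.
-/

namespace PoolQ4

open Finset

private theorem eta_primorial_pos (D : ℕ) : 0 < primorial D := by
  unfold primorial
  exact Finset.prod_pos fun p hp => (mem_filter.1 hp).2.pos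

theorem eta (K : ℕ) (hK : 1 ≤ K) (H : ClusterPlus K) :
    ∃ C : ℕ, ∀ n x : ℕ, 1 ≤ n → n ≤ x →
      ∃ m : ℕ, 1 ≤ m ∧ m ≤ K ∧ ∃ p q : ℕ, p.Prime ∧ q.Prime ∧ x < q ∧ q ≤ p ∧ p ≤ C * x ∧
        |(p : ℤ) - q - m * n| ≤ C := by
  obtain ⟨L, D₁, hL, HC⟩ := H
  set W : ℕ := primorial D₁ with hWd
  have hW : 0 < W := eta_primorial_pos _
  obtain ⟨X₀, hX⟩ := HC W 1 (K + W + W * L) hW dvd_rfl
  refine ⟨(2 + K + W + W * L) * (X₀ + 1) + W * (L + 1), fun n x hn hnx => ?_⟩
  have hx1 : 1 ≤ x := hn.trans hnx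
  rcases lt_or_ge n (W * (L + 1)) with hsmall | hbig
  · -- small `n`: take `p = q`
    obtain ⟨p, hp, hxp, hp2⟩ := Nat.exists_prime_lt_and_le_two_mul x (by omega)
    refine ⟨1, le_rfl, hK, p, p, hp, hp, hxp, le_rfl, ?_, ?_⟩
    · refine hp2.trans (Nat.mul_le_mul_right x ?_)
      have : 1 ≤ X₀ + 1 := by omega
      nlinarith
    · have h1 : (p : ℤ) - p - ((1 : ℕ) : ℤ) * n = -(n : ℤ) := by push_cast; ring
      rw [h1, abs_neg, Nat.abs_cast]
      have : n ≤ (2 + K + W + W * L) * (X₀ + 1) + W * (L + 1) := by omega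
      exact_mod_cast this
  · -- large `n`
    set x' : ℕ := max x X₀ with hx'
    have hx'1 : x ≤ x' := le_max_left _ _
    have hx'2 : X₀ ≤ x' := le_max_right _ _
    have hx'3 : x' ≤ (X₀ + 1) * x := by
      rw [hx', max_le_iff]
      constructor <;> nlinarith
    let t : Fin (K + 1) × Fin L → ℕ := fun s => (W - (s.1.1 * n) % W) + W * s.2.1
    let b : Fin (K + 1) × Fin L → ℕ := fun s => s.1.1 * n + t s
    have ht1 : ∀ s, 1 ≤ t s := by
      intro s
      have := Nat.mod_lt (s.1.1 * n) hW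
      show 1 ≤ (W - (s.1.1 * n) % W) + W * s.2.1
      omega
    have ht2 : ∀ s, t s ≤ W * L := by
      intro s
      have h1 : s.2.1 + 1 ≤ L := s.2.2
      have h2 : W * s.2.1 + W ≤ W * L := by
        calc W * s.2.1 + W = W * (s.2.1 + 1) := by ring
          _ ≤ W * L := Nat.mul_le_mul_left _ h1
      show (W - (s.1.1 * n) % W) + W * s.2.1 ≤ W * L
      omega
    have hbW : ∀ s, W ∣ b s := by
      intro s
      have h1 : b s = W * ((s.1.1 * n) / W) + W + W * s.2.1 := by
        have h2 := Nat.div_add_mod (s.1.1 * n) W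
        have h3 := Nat.mod_lt (s.1.1 * n) hW
        show s.1.1 * n + ((W - (s.1.1 * n) % W) + W * s.2.1) = _
        omega
      rw [h1]
      exact ⟨(s.1.1 * n) / W + 1 + s.2.1, by ring⟩
    have hsK : ∀ s : Fin (K + 1) × Fin L, s.1.1 ≤ K := fun s => by
      have := s.1.2
      omega
    have hbx : ∀ s, b s ≤ (K + W + W * L) * x' := by
      intro s
      have h1 : s.1.1 * n ≤ K * x' := Nat.mul_le_mul (hsK s) (hnx.trans hx'1)
      have h2 := ht2 s
      have h3 : W * L ≤ W * L * x' := Nat.le_mul_of_pos_right _ (by omega)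
      show s.1.1 * n + t s ≤ _
      have h4 : (K + W + W * L) * x' = K * x' + W * x' + W * L * x' := by ring
      omega
    have hlt : ∀ s s' : Fin (K + 1) × Fin L, s.1 < s'.1 → b s < b s' := by
      intro s s' h
      have h1 : s.1.1 + 1 ≤ s'.1.1 := h
      have h2 : (s.1.1 + 1) * n ≤ s'.1.1 * n := Nat.mul_le_mul_right _ h1
      have h3 := ht2 s
      have h4 := ht1 s'
      show s.1.1 * n + t s < s'.1.1 * n + t s'
      have h5 : W * (L + 1) = W * L + W := by ring
      have h6 : (s.1.1 + 1) * n = s.1.1 * n + n := by ring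
      omega
    have hne : ∀ s s', s ≠ s' → b s ≠ b s' := by
      intro s s' hss h
      rcases lt_trichotomy s.1 s'.1 with h1 | h1 | h1
      · exact absurd h (hlt s s' h1).ne
      · have h2 : s.2.1 ≠ s'.2.1 := fun h3 => hss (Prod.ext h1 (Fin.ext h3))
        have h4 : W * s.2.1 = W * s'.2.1 := by
          have h5 : s.1.1 * n + ((W - (s.1.1 * n) % W) + W * s.2.1) =
            s'.1.1 * n + ((W - (s'.1.1 * n) % W) + W * s'.2.1) := h
          rw [h1] at h5
          omega
        exact h2 (Nat.eq_of_mul_eq_mul_left hW h4)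
      · exact absurd h (hlt s' s h1).ne'
    obtain ⟨z, hz1, hz2, -, i, j, hij, hpi, hpj⟩ := hX x' 1 (fun _ => 1) b hx'2
      (fun _ => ⟨le_rfl, le_rfl⟩)
      (fun _ p hp hd => absurd (Nat.dvd_one.1 hd) hp.one_lt.ne')
      hbx
      (fun s => by
        obtain ⟨k, hk⟩ := hbW s
        show (1 * 1 + b s).Coprime W
        rw [hk, mul_one, Nat.coprime_add_mul_left_left]
        exact Nat.coprime_one_left W)
      (fun s s' hss h => hne s s' hss (by simpa using h.symm))
    simp only [one_mul] at hpi hpj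
    -- order the two clusters
    have key : ∀ i j : Fin (K + 1) × Fin L, i.1 < j.1 → (z + b i).Prime → (z + b j).Prime →
      ∃ m : ℕ, 1 ≤ m ∧ m ≤ K ∧ ∃ p q : ℕ, p.Prime ∧ q.Prime ∧ x < q ∧ q ≤ p ∧
        p ≤ ((2 + K + W + W * L) * (X₀ + 1) + W * (L + 1)) * x ∧
        |(p : ℤ) - q - m * n| ≤ ((2 + K + W + W * L) * (X₀ + 1) + W * (L + 1) : ℕ) := by
      intro i j hij hpi hpj
      have hij' : i.1.1 < j.1.1 := hij
      refine ⟨j.1.1 - i.1.1, by omega, by have := hsK j; omega, z + b j, z + b i, hpj, hpi,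
        by omega, by have := hlt i j hij; omega, ?_, ?_⟩
      · have h1 := hbx j
        have h2 : z + b j ≤ (2 + K + W + W * L) * x' := by
          have h3 : (2 + K + W + W * L) * x' = 2 * x' + (K + W + W * L) * x' := by ring
          omega
        refine h2.trans ?_
        calc (2 + K + W + W * L) * x' ≤ (2 + K + W + W * L) * ((X₀ + 1) * x) :=
              Nat.mul_le_mul_left _ hx'3
          _ = (2 + K + W + W * L) * (X₀ + 1) * x := by ring
          _ ≤ ((2 + K + W + W * L) * (X₀ + 1) + W * (L + 1)) * x :=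
              Nat.mul_le_mul_right _ (Nat.le_add_right _ _)
      · have h1 : ((z + b j : ℕ) : ℤ) - (z + b i : ℕ) - ((j.1.1 - i.1.1 : ℕ) : ℤ) * n =
            (t j : ℤ) - t i := by
          have h2 : b i = i.1.1 * n + t i := rfl
          have h3 : b j = j.1.1 * n + t j := rfl
          rw [h2, h3]
          push_cast [Nat.cast_sub hij'.le]
          ring
        rw [h1]
        have h4 := ht2 i
        have h5 := ht2 j
        have h6 : W * L ≤ (2 + K + W + W * L) * (X₀ + 1) + W * (L + 1) := by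
          have : W * (L + 1) = W * L + W := by ring
          omega
        have h7 : |(t j : ℤ) - t i| ≤ (W * L : ℕ) := by
          rw [abs_le]
          constructor <;> · push_cast; omega
        exact h7.trans (by exact_mod_cast h6)
    rcases lt_or_gt_of_ne hij with h | h
    · exact key i j h hpi hpj
    · exact key j i h hpj hpi

end PoolQ4
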