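import Pool.Agent.Work.MP_70e905_nt.Q4.Clus

/-!
# Eta.One : a difference of two primes slightly above `h j - h i` for some `i < j ≤ K`

From `ClusterPlus K`: there is `C` such that for all `x ≥ 1` and all `h 0 ≤ ... ≤ h K ≤ x` there are
`i < j` and primes `x < q < p ≤ C x` with `0 < (p - q) - (h j - h i) ≤ C`.
Clusters: cluster `c` consists of the integers `h c + t` with `t ≡ - h c` modulo `W`,
`c W (L + 1) < t ≤ c W (L + 1) + W L`.
-/

namespace PoolQ4

open Finset

private theorem one_primorial_pos (D : ℕ) : 0 < primorial D := by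
  unfold primorial
  exact Finset.prod_pos fun p hp => (mem_filter.1 hp).2.pos

theorem eta_one (K : ℕ) (H : ClusterPlus K) :
    ∃ C : ℕ, ∀ x : ℕ, 1 ≤ x → ∀ h : Fin (K + 1) → ℕ, Monotone h → (∀ c, h c ≤ x) →
      ∃ c d : Fin (K + 1), c < d ∧ ∃ p q : ℕ, p.Prime ∧ q.Prime ∧ x < q ∧ p ≤ C * x ∧
        q + h d < p + h c ∧ p + h c ≤ q + h d + C := by
  obtain ⟨L, D₁, hL, HC⟩ := H
  set W : ℕ := primorial D₁ with hWd
  have hW : 0 < W := one_primorial_pos _
  set T : ℕ := W * (L + 1) with hT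
  have hTL : T = W * L + W := by rw [hT]; ring
  obtain ⟨X₀, hX⟩ := HC W 1 (1 + (K + 1) * T) hW dvd_rfl
  refine ⟨(3 + (K + 1) * T) * (X₀ + 1) + (K + 1) * T, fun x hx1 h hmono hhx => ?_⟩
  set x' : ℕ := max x X₀ with hx'
  have hx'1 : x ≤ x' := le_max_left _ _
  have hx'2 : X₀ ≤ x' := le_max_right _ _
  have hx'3 : x' ≤ (X₀ + 1) * x := by
    rw [hx', max_le_iff]
    constructor <;> nlinarith
  let t : Fin (K + 1) × Fin L → ℕ := fun s => s.1.1 * T + ((W - (h s.1) % W) + W * s.2.1)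
  let b : Fin (K + 1) × Fin L → ℕ := fun s => h s.1 + t s
  have ht1 : ∀ s, s.1.1 * T + 1 ≤ t s := by
    intro s
    have := Nat.mod_lt (h s.1) hW
    show s.1.1 * T + 1 ≤ s.1.1 * T + ((W - (h s.1) % W) + W * s.2.1)
    omega
  have ht2 : ∀ s, t s ≤ s.1.1 * T + W * L := by
    intro s
    have h1 : s.2.1 + 1 ≤ L := s.2.2
    have h2 : W * s.2.1 + W ≤ W * L := by
      calc W * s.2.1 + W = W * (s.2.1 + 1) := by ring
        _ ≤ W * L := Nat.mul_le_mul_left _ h1
    show s.1.1 * T + ((W - (h s.1) % W) + W * s.2.1) ≤ s.1.1 * T + W * L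
    omega
  have hbW : ∀ s, W ∣ b s := by
    intro s
    have h1 : b s = W * ((h s.1) / W) + W + W * s.2.1 + s.1.1 * T := by
      have h2 := Nat.div_add_mod (h s.1) W
      have h3 := Nat.mod_lt (h s.1) hW
      show h s.1 + (s.1.1 * T + ((W - (h s.1) % W) + W * s.2.1)) = _
      omega
    rw [h1]
    exact ⟨(h s.1) / W + 1 + s.2.1 + s.1.1 * (L + 1), by rw [hT]; ring⟩
  have hsK : ∀ s : Fin (K + 1) × Fin L, s.1.1 ≤ K := fun s => by
    have := s.1.2
    omega
  have htK : ∀ s, t s ≤ (K + 1) * T := by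
    intro s
    have h1 := ht2 s
    have h2 : s.1.1 * T ≤ K * T := Nat.mul_le_mul_right _ (hsK s)
    have h3 : (K + 1) * T = K * T + T := by ring
    omega
  have hbx : ∀ s, b s ≤ (1 + (K + 1) * T) * x' := by
    intro s
    have h1 : h s.1 ≤ x' := (hhx _).trans hx'1
    have h2 := htK s
    have h3 : (K + 1) * T ≤ (K + 1) * T * x' := Nat.le_mul_of_pos_right _ (by omega)
    show h s.1 + t s ≤ _
    have h4 : (1 + (K + 1) * T) * x' = x' + (K + 1) * T * x' := by ring
    omega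
  have htlt : ∀ s s' : Fin (K + 1) × Fin L, s.1 < s'.1 → t s < t s' := by
    intro s s' h
    have h1 : s.1.1 + 1 ≤ s'.1.1 := h
    have h2 : (s.1.1 + 1) * T ≤ s'.1.1 * T := Nat.mul_le_mul_right _ h1
    have h3 := ht2 s
    have h4 := ht1 s'
    have h6 : (s.1.1 + 1) * T = s.1.1 * T + T := by ring
    omega
  have hlt : ∀ s s' : Fin (K + 1) × Fin L, s.1 < s'.1 → b s < b s' := by
    intro s s' hs
    have h2 : h s.1 ≤ h s'.1 := hmono hs.le
    have h3 := htlt s s' hs
    show h s.1 + t s < h s'.1 + t s'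
    omega
  have hne : ∀ s s', s ≠ s' → b s ≠ b s' := by
    intro s s' hss hb
    rcases lt_trichotomy s.1 s'.1 with h1 | h1 | h1
    · exact absurd hb (hlt s s' h1).ne
    · have h2 : s.2.1 ≠ s'.2.1 := fun h3 => hss (Prod.ext h1 (Fin.ext h3))
      have h4 : W * s.2.1 = W * s'.2.1 := by
        have h5 : h s.1 + (s.1.1 * T + ((W - (h s.1) % W) + W * s.2.1)) =
          h s'.1 + (s'.1.1 * T + ((W - (h s'.1) % W) + W * s'.2.1)) := hb
        rw [h1] at h5
        omega
      exact h2 (Nat.eq_of_mul_eq_mul_left hW h4)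
    · exact absurd hb (hlt s' s h1).ne'
  obtain ⟨z, hz1, hz2, -, i, j, hij, hpi, hpj⟩ := hX x' 1 (fun _ => 1) b hx'2
    (fun _ => ⟨le_rfl, le_rfl⟩)
    (fun _ p hp hd => absurd (Nat.dvd_one.1 hd) hp.one_lt.ne')
    hbx
    (fun s => by
      obtain ⟨k, hk⟩ := hbW s
      show (1 * 1 + b s).Coprime W
      rw [hk, mul_one, Nat.coprime_add_mul_left_left]
      exact Nat.coprime_one_left W)
    (fun s s' hss h => hne s s' hss (by simpa using h.symm))
  simp only [one_mul] at hpi hpj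
  -- order the two clusters
  have key : ∀ i j : Fin (K + 1) × Fin L, i.1 < j.1 → (z + b i).Prime → (z + b j).Prime →
    ∃ c d : Fin (K + 1), c < d ∧ ∃ p q : ℕ, p.Prime ∧ q.Prime ∧ x < q ∧
      p ≤ ((3 + (K + 1) * T) * (X₀ + 1) + (K + 1) * T) * x ∧
      q + h d < p + h c ∧
      p + h c ≤ q + h d + ((3 + (K + 1) * T) * (X₀ + 1) + (K + 1) * T) := by
    intro i j hij hpi hpj
    have hbi : b i = h i.1 + t i := rfl
    have hbj : b j = h j.1 + t j := rfl
    have htij := htlt i j hij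
    refine ⟨i.1, j.1, hij, z + b j, z + b i, hpj, hpi, by omega, ?_, by omega, ?_⟩
    · have h1 := hbx j
      have h2 : z + b j ≤ (3 + (K + 1) * T) * x' := by
        have h3 : (3 + (K + 1) * T) * x' = 2 * x' + (1 + (K + 1) * T) * x' := by ring
        omega
      refine h2.trans ?_
      calc (3 + (K + 1) * T) * x' ≤ (3 + (K + 1) * T) * ((X₀ + 1) * x) :=
            Nat.mul_le_mul_left _ hx'3
        _ = (3 + (K + 1) * T) * (X₀ + 1) * x := by ring
        _ ≤ ((3 + (K + 1) * T) * (X₀ + 1) + (K + 1) * T) * x :=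
            Nat.mul_le_mul_right _ (Nat.le_add_right _ _)
    · have h4 := htK j
      omega
  rcases lt_or_gt_of_ne hij with h | h
  · exact key i j h hpi hpj
  · exact key j i h hpj hpi

end PoolQ4
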